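import Mathlib
import Pool.Agent.Q157.WalshGraph

/-!
For `n ≥ 3` and every plateaued APN function `F` on `𝔽₂ⁿ`, every point outside the graph of
`F` has exclude multiplicity strictly less than `(2ⁿ - 1) / 3`.
-/

namespace Pool.Agent.Results.MP_4cdc07_co.NoMaximalMultiplicity

open Matrix Q157.Walsh

variable {n : ℕ}

/-- For plateaued `F` and `n ≥ 3` the sum of all values of `F` is `0`. -/
theorem sum_eq_zero {F : V n → V n} (hn : 3 ≤ n) (hP : IsPlateaued F) : ∑ x, F x = 0 := by
  have hdot : ∀ v : V n, v ⬝ᵥ (∑ x, F x) = 0 := by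
    intro v
    by_cases hv : v = 0
    · rw [hv, zero_dotProduct]
    · obtain ⟨l, hl, hlv⟩ := hP v hv
      obtain ⟨j, rfl, hj⟩ := amplitude hl hlv
      have h4 : (4 : ℤ) ∣ W F 0 v := by
        have h4' : (4 : ℤ) ∣ 2 ^ j := by
          obtain ⟨t, rfl⟩ : ∃ t, j = t + 2 := ⟨j - 2, by omega⟩
          exact ⟨2 ^ t, by rw [pow_add]; ring⟩
        rcases hlv 0 with h | h | h
        · rw [h]; exact dvd_zero _
        · rw [h]; exact h4'
        · rw [h]; exact (dvd_neg).2 h4'
      -- `W F 0 v = 2 ^ n - 2 * #{x | v ⬝ᵥ F x = 1}`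
      have hW : W F 0 v = 2 ^ n - 2 * ((Finset.univ.filter fun x => v ⬝ᵥ F x = 1).card : ℤ) := by
        unfold W
        have h1 : ∀ x : V n, chi (v ⬝ᵥ F x + 0 ⬝ᵥ x) = 1 - if v ⬝ᵥ F x = 1 then 2 else 0 := by
          intro x
          rw [zero_dotProduct, add_zero]
          generalize v ⬝ᵥ F x = t
          revert t; decide
        simp_rw [h1]
        rw [Finset.sum_sub_distrib, ← Finset.sum_filter, Finset.sum_const, Finset.sum_const,
          Finset.card_univ, card_V, nsmul_eq_mul, nsmul_eq_mul]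
        push_cast
        ring
      have hdvd : 2 ∣ (Finset.univ.filter fun x => v ⬝ᵥ F x = 1).card := by
        have h2n : (4 : ℤ) ∣ 2 ^ n := by
          obtain ⟨t, rfl⟩ : ∃ t, n = t + 2 := ⟨n - 2, by omega⟩
          exact ⟨2 ^ t, by rw [pow_add]; ring⟩
        rw [hW] at h4
        omega
      rw [dotProduct_sum]
      have h1 : ∀ x : V n, v ⬝ᵥ F x = if v ⬝ᵥ F x = 1 then 1 else 0 := by
        intro x
        generalize v ⬝ᵥ F x = t
        revert t; decide
      rw [Finset.sum_congr rfl (fun x _ => h1 x), ← Finset.sum_filter, Finset.sum_const,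
        nsmul_eq_mul, mul_one]
      exact (ZMod.natCast_eq_zero_iff _ _).2 hdvd
  funext i
  have := hdot (Pi.single i 1)
  rw [single_dotProduct, one_mul] at this
  exact this

/-- Two triples of points of the graph with the same sum and a common point are equal. -/
theorem eq_of_common {F : V n → V n} (hF : IsAPN F) {p : V n × V n} {T T' : Finset (V n × V n)}
    (hT : T ∈ ((graph F).powersetCard 3).filter fun T => ∑ t ∈ T, t = p)
    (hT' : T' ∈ ((graph F).powersetCard 3).filter fun T => ∑ t ∈ T, t = p)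
    {s : V n × V n} (hs : s ∈ T) (hs' : s ∈ T') : T = T' := by
  rw [Finset.mem_filter, Finset.mem_powersetCard] at hT hT'
  obtain ⟨⟨hTG, hTc⟩, hTs⟩ := hT
  obtain ⟨⟨hTG', hTc'⟩, hTs'⟩ := hT'
  have key : ∀ T : Finset (V n × V n), T ⊆ graph F → T.card = 3 → ∑ t ∈ T, t = p → s ∈ T →
      ∃ y z : V n × V n, y ∈ graph F ∧ z ∈ graph F ∧ y ≠ z ∧ T = {s, y, z} ∧ s + y + z = p := by
    intro T hTG hTc hTs hs
    obtain ⟨y, hy⟩ : (T.erase s).Nonempty := by
      rw [← Finset.card_pos, Finset.card_erase_of_mem hs, hTc]; norm_num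
    have hyT := Finset.mem_of_mem_erase hy
    have hys := Finset.ne_of_mem_erase hy
    obtain ⟨z, hsz, hyz, hTeq⟩ := exists_third hTc hs hyT hys.symm
    refine ⟨y, z, hTG hyT, hTG (by rw [hTeq]; simp), hyz, hTeq, ?_⟩
    rw [← hTs, hTeq, sum_three _ hys.symm hsz hyz]
  obtain ⟨y, z, hy, hz, hyz, hTeq, hsum⟩ := key T hTG hTc hTs hs
  obtain ⟨y', z', hy', hz', hyz', hTeq', hsum'⟩ := key T' hTG' hTc' hTs' hs'
  have h12 : y + z = y' + z' := by
    have h := hsum.trans hsum'.symm
    rw [add_assoc, add_assoc] at h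
    exact add_left_cancel h
  have hy2 := mem_graph.1 hy
  have hz2 := mem_graph.1 hz
  have hy2' := mem_graph.1 hy'
  have hz2' := mem_graph.1 hz'
  have hne : y.1 ≠ z.1 := fun h => hyz (Prod.ext h (by rw [hy2, hz2, h]))
  have e1 : y.1 + z.1 = y'.1 + z'.1 := congrArg Prod.fst h12
  have e2 : F y.1 + F z.1 = F y'.1 + F z'.1 := by
    rw [← hy2, ← hz2, ← hy2', ← hz2']; exact congrArg Prod.snd h12
  have h3 : F y'.1 + F (y'.1 + (y.1 + z.1)) = F y.1 + F z.1 := by
    rw [e1, V_add_cancel, e2]
  have hext : ∀ q r : V n × V n, q ∈ graph F → r ∈ graph F → q.1 = r.1 → q = r := by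
    intro q r hq hr h
    exact Prod.ext h (by rw [mem_graph.1 hq, mem_graph.1 hr, h])
  rw [hTeq, hTeq']
  rcases apn_pair hF hne h3 with h4 | h4
  · have h5 : y' = y := hext _ _ hy' hy h4
    have h6 : z' = z := by
      rw [h5] at h12
      exact (add_left_cancel h12).symm
    rw [h5, h6]
  · have h5 : y' = z := hext _ _ hy' hz h4
    have h6 : z' = y := by
      rw [h5, add_comm y z] at h12
      exact (add_left_cancel h12).symm
    rw [h5, h6]
    congr 1
    exact Finset.pair_comm _ _

/-- For every `n ≥ 3`, every plateaued APN function `F` on `𝔽₂ⁿ` and every point `p` outside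
the graph of `F`, the exclude multiplicity of `p` is strictly less than `(2ⁿ - 1) / 3`. -/
theorem result : ∀ n : ℕ, 3 ≤ n → ∀ F : V n → V n, IsAPN F → IsPlateaued F →
    ∀ p : V n × V n, p ∉ graph F → 3 * mult (graph F) p < 2 ^ n - 1 := by
  classical
  rintro n hn F hF hP ⟨a, b⟩ hp
  have hb : b ≠ F a := fun h => hp (mem_graph.2 h)
  set TT := ((graph F).powersetCard 3).filter fun T => ∑ t ∈ T, t = (a, b) with hTT
  have hmult : mult (graph F) (a, b) = TT.card := rfl
  rw [hmult]
  have hdisj : (TT : Set (Finset (V n × V n))).PairwiseDisjoint id := by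
    intro T hT T' hT' hne
    rw [Function.onFun, Finset.disjoint_left]
    intro s hs hs'
    exact hne (eq_of_common hF hT hT' hs hs')
  have hcardU : (TT.biUnion id).card = 3 * TT.card := by
    rw [Finset.card_biUnion hdisj, Finset.sum_congr rfl (g := fun _ => 3), Finset.sum_const,
      smul_eq_mul, mul_comm]
    intro T hT
    exact (Finset.mem_powersetCard.1 (Finset.mem_filter.1 hT).1).2
  have hsub : TT.biUnion id ⊆ (graph F).erase (a, F a) := by
    intro s hs
    rw [Finset.mem_biUnion] at hs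
    obtain ⟨T, hT, hsT⟩ := hs
    rw [hTT, Finset.mem_filter, Finset.mem_powersetCard] at hT
    obtain ⟨⟨hTG, hTc⟩, hTs⟩ := hT
    have hsT' : s ∈ T := hsT
    refine Finset.mem_erase.2 ⟨?_, hTG hsT'⟩
    rintro rfl
    obtain ⟨y, hy⟩ : (T.erase (a, F a)).Nonempty := by
      rw [← Finset.card_pos, Finset.card_erase_of_mem hsT', hTc]; norm_num
    have hyT := Finset.mem_of_mem_erase hy
    have hys := Finset.ne_of_mem_erase hy
    obtain ⟨z, hsz, hyz, hTeq⟩ := exists_third hTc hsT' hyT hys.symm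
    have hzT : z ∈ T := by rw [hTeq]; simp
    rw [hTeq, sum_three _ hys.symm hsz hyz] at hTs
    have e1 : a + y.1 + z.1 = a := congrArg Prod.fst hTs
    rw [add_assoc] at e1
    have e2 : y.1 + z.1 = 0 := by
      have := congrArg (fun w => a + w) e1
      simpa only [V_add_cancel, V_add_self] using this
    have e3 := V_add_eq_zero.1 e2
    exact hyz (Prod.ext e3 (by rw [mem_graph.1 (hTG hyT), mem_graph.1 (hTG hzT), e3]))
  have hcardG : ((graph F).erase (a, F a)).card = 2 ^ n - 1 := by
    rw [Finset.card_erase_of_mem (mem_graph.2 rfl)]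
    congr 1
    unfold graph
    rw [Finset.card_image_of_injective _ (fun x y h => (Prod.mk.inj h).1), Finset.card_univ, card_V]
  have hle : 3 * TT.card ≤ 2 ^ n - 1 := by
    rw [← hcardU, ← hcardG]
    exact Finset.card_le_card hsub
  refine lt_of_le_of_ne hle fun heq => ?_
  have hUeq : TT.biUnion id = (graph F).erase (a, F a) :=
    Finset.eq_of_subset_of_card_le hsub (by rw [hcardG, hcardU, heq])
  -- summing the second coordinates
  have h1 : ∑ s ∈ TT.biUnion id, s.2 = (TT.card : ℕ) • b := by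
    rw [Finset.sum_biUnion hdisj, Finset.sum_congr rfl (g := fun _ => b), Finset.sum_const]
    intro T hT
    rw [hTT, Finset.mem_filter] at hT
    have := congrArg Prod.snd hT.2
    rw [Prod.snd_sum] at this
    exact this
  have h2 : ∑ s ∈ (graph F).erase (a, F a), s.2 = F a := by
    have h3 : ∑ s ∈ graph F, s.2 = 0 := by
      unfold graph
      rw [Finset.sum_image (fun x _ y _ h => (Prod.mk.inj h).1)]
      exact sum_eq_zero hn hP
    rw [← Finset.add_sum_erase _ _ (mem_graph.2 rfl : (a, F a) ∈ graph F)] at h3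
    simp only at h3
    exact (V_add_eq_zero.1 h3).symm
  have hodd : TT.card % 2 = 1 := by
    obtain ⟨t, rfl⟩ : ∃ t, n = t + 1 := ⟨n - 1, by omega⟩
    have : 1 ≤ 2 ^ (t + 1) := Nat.one_le_two_pow
    rw [pow_succ] at heq this
    omega
  have h4 : (TT.card : ℕ) • b = b := by
    funext i
    rw [Pi.smul_apply, nsmul_eq_mul]
    have : ((TT.card : ℕ) : ZMod 2) = ((1 : ℕ) : ZMod 2) := by
      rw [ZMod.natCast_eq_natCast_iff']
      omega
    rw [this]; simp
  rw [hUeq, h2, h4] at h1
  exact hb h1.symm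

end Pool.Agent.Results.MP_4cdc07_co.NoMaximalMultiplicity
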